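import Pool.Agent.H560R2.Mat8
import Pool.Agent.TH655.ML.Low

set_option autoImplicit false

/-!
# The chain argument on average, for algorithms with few comparisons
-/

namespace Pool.Agent.X246.LPA

open Finset Pool.Agent.H560R2

section dual

variable {n : ℕ}

open Classical in
/-- Average-case bound for monotone real programs, in terms of the deleted edges. -/
theorem avg_dual (w lam c : ℕ) (hw : 1 ≤ w) (hc : 1 ≤ c) (hn : n < 2 ^ lam)
    (hbig : 2 ^ 59 * (lam + 1) ^ 8 * w ^ 8 * c ≤ n) :
    ∃ (Pt : Type) (_ : Fintype Pt) (_ : Nonempty Pt) (W : Pt → Finset (Fin n ⊕ Fin n)),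
      (∀ p, (W p).card < n) ∧
      ∀ (B0 : Set (Set (Fin n × Fin n) → ℝ))
        (_ : ∀ b ∈ B0, ∃ T : Finset (Fin n × Fin n), T.card ≤ 1 ∧ LeafOnR T b)
        (L : List (Set (Fin n × Fin n) → ℝ)) (_ : RProg B0 L) (g : Set (Fin n × Fin n) → ℝ)
        (_ : g ∈ B0 ∨ g ∈ L) (τ : ℝ) (_ : 8 * c * L.length ≤ 2 ^ w),
        ((univ.filter (fun p : Pt =>
            τ ≤ g {e | Sum.inl e.1 ∉ W p ∧ Sum.inr e.2 ∉ W p})).card : ℚ) *
            Fintype.card (Equiv.Perm (Fin n)) * (2 * c) ≤
          ((univ.filter (fun σ : Equiv.Perm (Fin n) =>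
            τ ≤ g {e | σ e.1 ≠ e.2})).card : ℚ) * Fintype.card Pt * (2 * c) +
          Fintype.card (Equiv.Perm (Fin n)) * Fintype.card Pt := by
  obtain ⟨Pt, i1, i2, W, hW, H⟩ := match_avg (n := n) w lam c hw hc hn hbig
  refine ⟨Pt, i1, i2, W, hW, ?_⟩
  intro B0 hB0 L hL g hg τ hlen
  have hc' : ∀ σ : Equiv.Perm (Fin n), ({e : Fin n × Fin n | σ e.1 = e.2}ᶜ : Set _) =
      {e | σ e.1 ≠ e.2} := by
    intro σ
    ext e
    simp
  have hc2 : ∀ W : Finset (Fin n ⊕ Fin n),
      ({e : Fin n × Fin n | Sum.inl e.1 ∈ W ∨ Sum.inr e.2 ∈ W}ᶜ : Set _) =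
      {e | Sum.inl e.1 ∉ W ∧ Sum.inr e.2 ∉ W} := by
    intro W
    ext e
    simp
  obtain ⟨F, hF⟩ : ∃ F : Set (Fin n × Fin n) → ℝ, F = fun Z => - g Zᶜ := ⟨_, rfl⟩
  -- a threshold
  obtain ⟨θ, hθ⟩ : ∃ θ : ℝ, ∀ Z, θ ≤ F Z ↔ -τ < F Z := by
    by_cases hne : (univ.filter fun Z => -τ < F Z).Nonempty
    · obtain ⟨Z0, h1, h2⟩ := exists_min_image _ F hne
      rw [mem_filter] at h1
      refine ⟨F Z0, fun Z => ⟨fun h => lt_of_lt_of_le h1.2 h, fun h => ?_⟩⟩
      exact h2 Z (by rw [mem_filter]; exact ⟨mem_univ _, h⟩)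
    · rw [not_nonempty_iff_eq_empty, filter_eq_empty_iff] at hne
      refine ⟨-τ + 1, fun Z => ⟨fun h => by linarith, fun h => absurd h (hne (mem_univ Z))⟩⟩
  have h1 := H {h | ∃ b ∈ B0, h = fun Z => - b Zᶜ} (by
    rintro _ ⟨b, hb, rfl⟩
    obtain ⟨T, hT, h⟩ := hB0 b hb
    exact ⟨T, hT, h.dual⟩) _ hL.dual F (by
      rw [hF]
      rcases hg with h | h
      · exact Or.inl ⟨g, h, rfl⟩
      · exact Or.inr (List.mem_map.mpr ⟨g, h, rfl⟩)) θ (by rw [List.length_map]; exact hlen)
  have h2 : ∀ σ : Equiv.Perm (Fin n), θ ≤ F {e | σ e.1 = e.2} ↔ ¬ τ ≤ g {e | σ e.1 ≠ e.2} := by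
    intro σ
    rw [hθ, hF]
    dsimp only
    rw [hc', neg_lt_neg_iff, not_le]
  have h3 : ∀ p, θ ≤ F {e | Sum.inl e.1 ∈ W p ∨ Sum.inr e.2 ∈ W p} ↔
      ¬ τ ≤ g {e | Sum.inl e.1 ∉ W p ∧ Sum.inr e.2 ∉ W p} := by
    intro p
    rw [hθ, hF]
    dsimp only
    rw [hc2, neg_lt_neg_iff, not_le]
  simp only [h2, h3] at h1
  have h4 := card_filter_add_card_filter_not (s := (univ : Finset (Equiv.Perm (Fin n))))
    (fun σ => τ ≤ g {e | σ e.1 ≠ e.2})
  have h5 := card_filter_add_card_filter_not (s := (univ : Finset Pt))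
    (fun p => τ ≤ g {e | Sum.inl e.1 ∉ W p ∧ Sum.inr e.2 ∉ W p})
  rw [card_univ] at h4 h5
  have h4' : ((univ.filter (fun σ : Equiv.Perm (Fin n) => ¬ τ ≤ g {e | σ e.1 ≠ e.2})).card : ℚ) =
      Fintype.card (Equiv.Perm (Fin n)) -
        ((univ.filter (fun σ : Equiv.Perm (Fin n) => τ ≤ g {e | σ e.1 ≠ e.2})).card : ℚ) := by
    rw [← h4]
    push_cast
    ring
  have h5' : ((univ.filter (fun p : Pt =>
      ¬ τ ≤ g {e | Sum.inl e.1 ∉ W p ∧ Sum.inr e.2 ∉ W p})).card : ℚ) =
      Fintype.card Pt - ((univ.filter (fun p : Pt =>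
        τ ≤ g {e | Sum.inl e.1 ∉ W p ∧ Sum.inr e.2 ∉ W p})).card : ℚ) := by
    rw [← h5]
    push_cast
    ring
  have h6 : ((univ.filter (fun σ : Equiv.Perm (Fin n) => ¬ τ ≤ g {e | σ e.1 ≠ e.2})).card : ℚ) *
      Fintype.card Pt * (2 * c) ≤
      ((univ.filter (fun p : Pt => ¬ τ ≤ g {e | Sum.inl e.1 ∉ W p ∧ Sum.inr e.2 ∉ W p})).card : ℚ) *
        Fintype.card (Equiv.Perm (Fin n)) * (2 * c) +
      Fintype.card Pt * Fintype.card (Equiv.Perm (Fin n)) := by
    exact_mod_cast h1
  rw [h4', h5'] at h6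
  linarith

end dual

section chain

variable {α β : Type} {m : ℕ} {Pt Ng : Type}

open Classical in
/-- The chain argument on average. -/
theorem chain_avg [Fintype Pt] [Fintype Ng] [Nonempty Ng] (pos : Pt → Set α)
    (neg : Ng → Set α) (c K : ℕ) (O : (Fin m → Set α) → Prop) (pa : (Fin m → Set α) → β)
    (hO : ∀ Y Y', pa Y = pa Y' → (O Y ↔ O Y'))
    (hK : ∀ y : Fin m → Ng, ((range m).filter fun i =>
      pa (stt neg y i) ≠ pa (stt neg y (i + 1))).card + 1 ≤ K)
    (hadv : ∀ (z : Fin m → Set α) (J : Fin m), z J = ∅ →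
      ((univ.filter (fun p => pa (Function.update z J (pos p)) ≠ pa z)).card : ℚ) *
        Fintype.card Ng * (2 * c) ≤
        ((univ.filter (fun ω => pa (Function.update z J (neg ω)) ≠ pa z)).card : ℚ) *
          Fintype.card Pt * (2 * c) + Fintype.card Ng * Fintype.card Pt) :
    (∑ i : Fin m, ∑ y : Fin m → Ng, ((univ.filter (fun p : Pt =>
        O (Function.update (stt neg y i) i (pos p)))).card : ℚ)) * (2 * c) ≤
      (∑ i : Fin m, ((univ.filter (fun y : Fin m → Ng => O (stt neg y (i + 1)))).card : ℚ)) *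
          Fintype.card Pt * (2 * c) +
      (Fintype.card (Fin m → Ng) : ℚ) * Fintype.card Pt * (2 * c * ((K : ℚ) - 1) + m) := by
  set N : ℚ := (Fintype.card Ng : ℚ) with hN
  set P : ℚ := (Fintype.card Pt : ℚ) with hP
  have hNpos : 0 < N := by
    rw [hN]
    exact_mod_cast Fintype.card_pos
  have hP0 : 0 ≤ P := by rw [hP]; exact Nat.cast_nonneg _
  have hc0 : (0 : ℚ) ≤ c := Nat.cast_nonneg _
  let b : Fin m → (Fin m → Ng) → ℚ := fun i y => ((univ.filter (fun p : Pt =>
    O (Function.update (stt neg y i) i (pos p)))).card : ℚ)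
  let a : Fin m → (Fin m → Ng) → ℚ := fun i y => if O (stt neg y (i + 1)) then 1 else 0
  let ch : Fin m → (Fin m → Ng) → ℚ := fun i y =>
    if pa (stt neg y i) ≠ pa (stt neg y (i + 1)) then 1 else 0
  have hstep : ∀ i y, b i y * N * (2 * c) ≤
      (∑ ω : Ng, (a i (Function.update y i ω) + ch i (Function.update y i ω))) * P * (2 * c) +
        N * P := by
    intro i y
    have hempty : stt neg y i i = ∅ := by
      ext v
      simp [stt]
    have ha0 : ∀ ω, (0 : ℚ) ≤ a i (Function.update y i ω) := by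
      intro ω
      simp only [a]; split_ifs <;> norm_num
    have hch0 : ∀ ω, (0 : ℚ) ≤ ch i (Function.update y i ω) := by
      intro ω
      simp only [ch]; split_ifs <;> norm_num
    by_cases hOZ : O (stt neg y i)
    · -- every negative instance is changed or answered in the same way
      have h1 : N ≤ ∑ ω : Ng, (a i (Function.update y i ω) + ch i (Function.update y i ω)) := by
        have h2 : N = ∑ _ω : Ng, (1 : ℚ) := by
          rw [sum_const, card_univ, nsmul_eq_mul, mul_one]
        rw [h2]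
        refine sum_le_sum fun ω _ => ?_
        by_cases h3 : pa (stt neg (Function.update y i ω) i) =
            pa (stt neg (Function.update y i ω) (i + 1))
        · have h4 : a i (Function.update y i ω) = 1 := by
            simp only [a]
            rw [if_pos]
            rw [← hO _ _ h3, stt_update]
            exact hOZ
          have := hch0 ω
          linarith
        · have h4 : ch i (Function.update y i ω) = 1 := by
            simp only [ch]
            rw [if_pos h3]
          have := ha0 ω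
          linarith
      have h2 : b i y ≤ P := by
        simp only [b]
        rw [hP, ← card_univ]
        exact_mod_cast card_le_card (filter_subset _ _)
      have h3 : b i y * N ≤
          (∑ ω : Ng, (a i (Function.update y i ω) + ch i (Function.update y i ω))) * P := by
        calc b i y * N ≤ P * N := mul_le_mul_of_nonneg_right h2 hNpos.le
          _ = N * P := by ring
          _ ≤ _ := mul_le_mul_of_nonneg_right h1 hP0
      have h4 := mul_le_mul_of_nonneg_right h3 (by positivity : (0 : ℚ) ≤ 2 * c)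
      have h5 : 0 ≤ N * P := mul_nonneg hNpos.le hP0
      linarith
    · have h1 := hadv (stt neg y i) i hempty
      have hb : b i y ≤ ((univ.filter (fun p =>
          pa (Function.update (stt neg y i) i (pos p)) ≠ pa (stt neg y i))).card : ℚ) := by
        simp only [b]
        have : (univ.filter (fun p : Pt => O (Function.update (stt neg y i) i (pos p)))) ⊆
            (univ.filter (fun p =>
              pa (Function.update (stt neg y i) i (pos p)) ≠ pa (stt neg y i))) := by
          intro p hp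
          rw [Finset.mem_filter] at hp ⊢
          exact ⟨mem_univ _, fun h => hOZ ((hO _ _ h).1 hp.2)⟩
        exact_mod_cast Finset.card_le_card this
      have hw : ((univ.filter (fun ω =>
          pa (Function.update (stt neg y i) i (neg ω)) ≠ pa (stt neg y i))).card : ℚ) ≤
          ∑ ω : Ng, (a i (Function.update y i ω) + ch i (Function.update y i ω)) := by
        rw [Finset.card_filter]
        push_cast
        apply Finset.sum_le_sum
        intro ω _
        by_cases hgω : pa (Function.update (stt neg y i) i (neg ω)) ≠ pa (stt neg y i)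
        · rw [if_pos hgω]
          have : ch i (Function.update y i ω) = 1 := by
            simp only [ch]
            rw [if_pos]
            rw [stt_update, stt_succ]
            exact fun h' => hgω h'.symm
          have := ha0 ω
          linarith
        · rw [if_neg hgω]
          have := ha0 ω
          have := hch0 ω
          linarith
      calc b i y * N * (2 * c) ≤ ((univ.filter (fun p =>
            pa (Function.update (stt neg y i) i (pos p)) ≠ pa (stt neg y i))).card : ℚ) * N *
            (2 * c) := by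
            apply mul_le_mul_of_nonneg_right _ (by positivity)
            exact mul_le_mul_of_nonneg_right hb hNpos.le
        _ ≤ _ := h1
        _ ≤ _ := by
            have h2 := mul_le_mul_of_nonneg_right hw
              (mul_nonneg hP0 (by positivity : (0 : ℚ) ≤ 2 * c))
            linarith
  have hsum : ∀ i, (∑ y, b i y) * (2 * c) ≤
      (∑ y, (a i y + ch i y)) * P * (2 * c) + Fintype.card (Fin m → Ng) * P := by
    intro i
    have h1 : (∑ y, b i y) * N * (2 * c) ≤
        (∑ y, ∑ ω : Ng, (a i (Function.update y i ω) + ch i (Function.update y i ω))) * P * (2 * c) +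
          Fintype.card (Fin m → Ng) * (N * P) := by
      rw [Finset.sum_mul, Finset.sum_mul, Finset.sum_mul, Finset.sum_mul]
      have : (Fintype.card (Fin m → Ng) : ℚ) * (N * P) = ∑ _y : Fin m → Ng, N * P := by
        rw [Finset.sum_const, Finset.card_univ, nsmul_eq_mul]
      rw [this, ← Finset.sum_add_distrib]
      exact Finset.sum_le_sum (fun y _ => hstep i y)
    rw [sum_update i (fun y => a i y + ch i y)] at h1
    refine le_of_mul_le_mul_right ?_ hNpos
    calc (∑ y, b i y) * (2 * c) * N = (∑ y, b i y) * N * (2 * c) := by ring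
      _ ≤ _ := h1
      _ = _ := by rw [← hN]; ring
  have hall : (∑ i, ∑ y, b i y) * (2 * c) ≤
      (∑ i, ∑ y, a i y) * P * (2 * c) + (∑ i, ∑ y, ch i y) * P * (2 * c) +
        m * (Fintype.card (Fin m → Ng) * P) := by
    rw [Finset.sum_mul]
    refine (Finset.sum_le_sum (fun i _ => hsum i)).trans (le_of_eq ?_)
    rw [Finset.sum_add_distrib, Finset.sum_const, Finset.card_univ, Fintype.card_fin, nsmul_eq_mul]
    congr 1
    rw [← add_mul, ← add_mul, ← Finset.sum_add_distrib, ← Finset.sum_mul, ← Finset.sum_mul]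
    congr 2
    apply Finset.sum_congr rfl
    intro i _
    rw [Finset.sum_add_distrib]
  have hch : (∑ i, ∑ y, ch i y) ≤ Fintype.card (Fin m → Ng) * ((K : ℚ) - 1) := by
    rw [Finset.sum_comm]
    have h1 : ∀ y : Fin m → Ng, ∑ i, ch i y ≤ (K : ℚ) - 1 := by
      intro y
      have h2 := hK y
      have h3 : ∑ i : Fin m, ch i y = (((Finset.range m).filter (fun i =>
          pa (stt neg y i) ≠ pa (stt neg y (i + 1)))).card : ℚ) := by
        rw [Finset.card_filter, Finset.sum_range]
        push_cast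
        rfl
      rw [h3]
      have h4 : ((((Finset.range m).filter (fun i =>
          pa (stt neg y i) ≠ pa (stt neg y (i + 1)))).card + 1 : ℕ) : ℚ) ≤ (K : ℕ) := by
        exact_mod_cast h2
      push_cast at h4
      linarith
    calc ∑ y, ∑ i, ch i y ≤ ∑ _y : Fin m → Ng, ((K : ℚ) - 1) :=
          Finset.sum_le_sum (fun y _ => h1 y)
      _ = _ := by rw [Finset.sum_const, Finset.card_univ, nsmul_eq_mul]
  have ha : (∑ i, ∑ y, a i y) = ∑ i : Fin m, ((univ.filter (fun y : Fin m → Ng =>
      O (stt neg y (i + 1)))).card : ℚ) := by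
    apply Finset.sum_congr rfl
    intro i _
    rw [Finset.card_filter]
    push_cast
    rfl
  rw [ha] at hall
  calc _ ≤ _ := hall
    _ ≤ (∑ i : Fin m, ((univ.filter (fun y : Fin m → Ng => O (stt neg y (i + 1)))).card : ℚ)) *
          P * (2 * c) +
        (Fintype.card (Fin m → Ng) * ((K : ℚ) - 1)) * P * (2 * c) +
        m * (Fintype.card (Fin m → Ng) * P) := by
        have := mul_le_mul_of_nonneg_right hch (mul_nonneg hP0 (by positivity : (0 : ℚ) ≤ 2 * c))
        linarith
    _ = _ := by ring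

end chain

end Pool.Agent.X246.LPA
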