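import Pool.Agent.X246.LPA.Chain

set_option autoImplicit false

/-!
# Monotone real algorithms with few comparisons, on average
-/

namespace Pool.Agent.X246.LPA

open Finset Pool.Agent.H560R2 Pool.Agent.TH655.ML

/-- the number of changes of the outcomes of the tests along a chain of inputs -/
theorem changes {ι : Type} (T : TH655.ML.Tree ι) (hT : T.Mono) (r m : ℕ) (b : ℕ → ι → ℝ)
    (hb : ∀ i < m, b i ≤ b (i + 1)) (hr : ∀ i ≤ m, (path (b i) T 0).length ≤ r) :
    ((range m).filter fun i => path (b i) T 0 ≠ path (b (i + 1)) T 0).card + 1 ≤ 2 ^ r := by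
  classical
  have key : ∀ k ≤ m, ((range k).filter fun i => path (b i) T 0 ≠ path (b (i + 1)) T 0).card ≤
      rank r (path (b k) T 0) := by
    intro k
    induction k with
    | zero => intro _; simp
    | succ k ih =>
      intro hk
      have h1 := ih (by omega)
      rw [range_add_one, filter_insert]
      rcases rank_mono (hb k (by omega)) T hT r (le_refl (0 : ℕ → ℝ)) (hr k (by omega))
        (hr (k + 1) hk) with h2 | h2
      · rw [if_neg (not_not.2 h2), ← h2]
        exact h1
      · by_cases h3 : path (b k) T 0 ≠ path (b (k + 1)) T 0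
        · rw [if_pos h3, card_insert_of_notMem (by simp)]
          omega
        · rw [if_neg h3]
          omega
  have h1 := key m le_rfl
  have h2 := rank_lt r (path (b m) T 0)
  have h3 : ((range m).filter fun i => path (b i) T 0 ≠ path (b (i + 1)) T 0).card =
    ((range m).filter fun i => path (b i) T 0 ≠ path (b (i + 1)) T 0).card := rfl
  omega

/-- the input of a family of sets -/
noncomputable def inp {ι : Type} {M n : ℕ} (e : ι → Rw M n) (y : Fin M → Set (Fin n × Fin n)) :
    ι → ℝ := fun i => rhs (enc y) (e i)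

theorem inp_mono {ι : Type} {M n : ℕ} (e : ι → Rw M n) {y y' : Fin M → Set (Fin n × Fin n)}
    (h : ∀ j, y j ⊆ y' j) : inp e y ≤ inp e y' :=
  fun i => rhs_le (enc_le h) (e i)

theorem inp_small {ι : Type} {M n : ℕ} (e : ι → Rw M n) (y : Fin M → Set (Fin n × Fin n)) :
    Small (inp e y) := fun i => rhs_values (enc y) (e i)

theorem inp_feas {ι : Type} {M n : ℕ} (e : ι → Rw M n) (he : Function.Surjective e)
    (y : Fin M → Set (Fin n × Fin n)) :
    (∃ z : Fin M × (Fin n × Fin n) → ℝ, ∀ i, inp e y i ≤ ∑ j, Mtx M n (e i) j * z j) ↔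
      ∀ J, BF n (y J) := by
  have h1 := feas_iff (enc y)
  simp only [enc_eq] at h1
  rw [← h1]
  constructor
  · rintro ⟨z, hz⟩
    refine ⟨z, fun i => ?_⟩
    obtain ⟨k, rfl⟩ := he i
    exact hz k
  · rintro ⟨z, hz⟩
    exact ⟨z, fun i => hz (e i)⟩

open Classical in
/-- the advantage in one block -/
theorem block {ι : Type} {M n : ℕ} (d c : ℕ) {Pt : Type} [Fintype Pt]
    (W : Pt → Finset (Fin n ⊕ Fin n))
    (H : ∀ (B0 : Set (Set (Fin n × Fin n) → ℝ))
        (_ : ∀ b ∈ B0, ∃ T : Finset (Fin n × Fin n), T.card ≤ 1 ∧ LeafOnR T b)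
        (L : List (Set (Fin n × Fin n) → ℝ)) (_ : RProg B0 L) (g : Set (Fin n × Fin n) → ℝ)
        (_ : g ∈ B0 ∨ g ∈ L) (τ : ℝ) (_ : 8 * c * L.length ≤ 2 ^ d),
        ((univ.filter (fun p : Pt =>
            τ ≤ g {e | Sum.inl e.1 ∉ W p ∧ Sum.inr e.2 ∉ W p})).card : ℚ) *
            Fintype.card (Equiv.Perm (Fin n)) * (2 * c) ≤
          ((univ.filter (fun σ : Equiv.Perm (Fin n) =>
            τ ≤ g {e | σ e.1 ≠ e.2})).card : ℚ) * Fintype.card Pt * (2 * c) +
          Fintype.card (Equiv.Perm (Fin n)) * Fintype.card Pt)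
    (T : TH655.ML.Tree ι) (hT : T.Mono) (e : ι → Rw M n)
    (hsteps : ∀ b : ι → ℝ, Small b → 8 * c * steps b T 0 ≤ 2 ^ d)
    (y : Fin M → Set (Fin n × Fin n)) (J : Fin M) (hyJ : y J = ∅) :
    ((univ.filter (fun p : Pt => path (inp e (Function.update y J
        {e | Sum.inl e.1 ∉ W p ∧ Sum.inr e.2 ∉ W p})) T 0 ≠ path (inp e y) T 0)).card : ℚ) *
        Fintype.card (Equiv.Perm (Fin n)) * (2 * c) ≤
      ((univ.filter (fun σ : Equiv.Perm (Fin n) => path (inp e (Function.update y J
        {e | σ e.1 ≠ e.2})) T 0 ≠ path (inp e y) T 0)).card : ℚ) * Fintype.card Pt * (2 * c) +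
      Fintype.card (Equiv.Perm (Fin n)) * Fintype.card Pt := by
  have hup : Function.update y J ∅ = y := by
    rw [← hyJ]; exact Function.update_eq_self J y
  set B : Set (Set (Fin n × Fin n) → ℝ) :=
    {h | ∃ S : Finset (Fin n × Fin n), S.card ≤ 1 ∧ LeafOnR S h} with hB
  have hconst : ∀ c : ℝ, (fun _ => c) ∈ B := fun c => ⟨∅, by simp, fun x x' _ => le_rfl⟩
  obtain ⟨L, G, hL, hG, hlen, hGX⟩ := program (B := B) (∅ : Set (Fin n × Fin n))
    (fun X => inp e (Function.update y J X)) (by
      intro i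
      simp only [inp]
      rcases e i with q | q | q | q
      · exact hconst 0
      · refine ⟨{q.2}, by simp, fun x x' h => ?_⟩
        show bit (enc (Function.update y J x)) q - 1 ≤ bit (enc (Function.update y J x')) q - 1
        have key : bit (enc (Function.update y J x)) q ≤
            bit (enc (Function.update y J x')) q := by
          unfold bit
          by_cases h1 : enc (Function.update y J x) q = true
          · have h2 : enc (Function.update y J x') q = true := by
              simp only [enc, decide_eq_true_eq] at h1 ⊢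
              by_cases hp : q.1 = J
              · rw [hp, Function.update_self] at h1 ⊢
                exact h q.2 (by simp) h1
              · rw [Function.update_of_ne hp] at h1 ⊢
                exact h1
            rw [if_pos h1, if_pos h2]
          · rw [if_neg h1]
            split_ifs <;> norm_num
        linarith
      · exact hconst 1
      · exact hconst (-1)) (by
      intro X
      apply inp_mono
      intro j
      by_cases hj : j = J
      · subst hj
        rw [Function.update_self, Function.update_self]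
        exact Set.empty_subset _
      · rw [Function.update_of_ne hj, Function.update_of_ne hj]) T hT [] (fun _ => 0)
    (fun _ => 0) RProg.nil (fun k => Or.inl (hconst 0)) (fun X => le_rfl)
    (Or.inl (hconst 0))
  simp only [hup] at hlen hGX
  have hiff : ∀ X, (1 : ℝ) ≤ G X ↔ path (inp e (Function.update y J X)) T 0 ≠
      path (inp e y) T 0 := by
    intro X
    rw [hGX X]
    have h10 : ¬ (1 : ℝ) ≤ 0 := by norm_num
    simp only [h10, false_or]
  have h1 := H B (fun b hb => hb) L hL G hG 1 (by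
    have h2 := hsteps (inp e y) (inp_small e y)
    have h3 : L.length ≤ steps (inp e y) T 0 := by
      simp only [List.length_nil, zero_add] at hlen
      exact hlen
    exact (Nat.mul_le_mul_left _ h3).trans h2)
  simp only [hiff] at h1
  exact h1

open Classical Matrix in
/-- **Monotone real algorithms for linear feasibility with few comparisons, on average.** -/
theorem main (d r c : ℕ) (hd : 1 ≤ d) (hc : 1 ≤ c) :
    ∃ (m N : ℕ) (A : Matrix (Fin m) (Fin N) ℝ) (Λ : Type) (_ : Fintype Λ) (_ : Nonempty Λ)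
      (b : Λ → Fin m → ℝ), N = c * 2 ^ r * (2 ^ 120 * (c * d) ^ 9) ^ 2 ∧ m ≤ 6 * N ∧
      (∀ i j, A i j = -1 ∨ A i j = 0 ∨ A i j = 1) ∧ (∀ l, Small (b l)) ∧
      2 * (univ.filter (fun l => ∃ x : Fin N → ℝ, b l ≤ A *ᵥ x)).card = Fintype.card Λ ∧
      ∀ T : TH655.ML.Tree (Fin m), T.Mono →
        (∀ b : Fin m → ℝ, Small b → (path b T 0).length ≤ r) →
        (∀ b : Fin m → ℝ, Small b → 8 * c * steps b T 0 ≤ 2 ^ d) →
        2 * c * (univ.filter (fun l => (ans (b l) T 0 = true ↔
          ∃ x : Fin N → ℝ, b l ≤ A *ᵥ x))).card < (c + 2) * Fintype.card Λ := by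
  have hcd1 : 1 ≤ c * d := Nat.mul_pos hc hd
  obtain ⟨lam, h1, h2⟩ := exists_size (c * d) hcd1
  set n := 2 ^ 120 * (c * d) ^ 9 with hn
  set M := c * 2 ^ r with hM
  have hMpos : 0 < M := by rw [hM]; positivity
  have hn1 : 1 ≤ n := by rw [hn]; exact Nat.one_le_iff_ne_zero.2 (by positivity)
  have hbig : 2 ^ 59 * (lam + 1) ^ 8 * d ^ 8 * c ≤ n := by
    refine le_trans ?_ h2
    calc 2 ^ 59 * (lam + 1) ^ 8 * d ^ 8 * c ≤ 2 ^ 59 * (lam + 1) ^ 8 * d ^ 8 * c ^ 8 :=
          Nat.mul_le_mul_left _ (Nat.le_self_pow (by norm_num) c)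
      _ = _ := by ring
  obtain ⟨Pt, i1, i2, W, hW, H⟩ := avg_dual (n := n) d lam c hd hc h1 hbig
  let e : Fin (Fintype.card (Rw M n)) ≃ Rw M n := (Fintype.equivFin (Rw M n)).symm
  have hcard : Fintype.card (Fin M × (Fin n × Fin n)) = M * n ^ 2 := by
    simp only [Fintype.card_prod, Fintype.card_fin]
    ring
  let cc : Fin (M * n ^ 2) ≃ (Fin M × (Fin n × Fin n)) :=
    (Fintype.equivFinOfCardEq hcard).symm
  let A : Matrix (Fin (Fintype.card (Rw M n))) (Fin (M * n ^ 2)) ℝ := fun i j => Mtx M n (e i) (cc j)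
  have hA : ∀ y : Fin M → Set (Fin n × Fin n),
      (∃ x : Fin (M * n ^ 2) → ℝ, inp e y ≤ A *ᵥ x) ↔ ∀ J, BF n (y J) := by
    intro y
    rw [← inp_feas e e.surjective y]
    constructor
    · rintro ⟨x, hx⟩
      refine ⟨fun p => x (cc.symm p), fun i => ?_⟩
      refine (hx i).trans (le_of_eq ?_)
      show ∑ j, Mtx M n (e i) (cc j) * x j = _
      rw [← Equiv.sum_comp cc]
      simp
    · rintro ⟨z, hz⟩
      refine ⟨fun j => z (cc j), fun i => ?_⟩
      refine (hz i).trans (le_of_eq ?_)
      show _ = ∑ j, Mtx M n (e i) (cc j) * z (cc j)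
      rw [← Equiv.sum_comp cc]
  let neg : Equiv.Perm (Fin n) → Set (Fin n × Fin n) := fun σ => {q | σ q.1 ≠ q.2}
  let pos : Pt → Set (Fin n × Fin n) := fun p => {q | Sum.inl q.1 ∉ W p ∧ Sum.inr q.2 ∉ W p}
  have hbf0 : BF n ∅ := BF_perm 1 ∅ (fun e he => absurd he (Set.notMem_empty e))
  have hneg : ∀ σ, BF n (neg σ) := fun σ => BF_perm σ _ (fun e he => he)
  have hpos : ∀ p, ¬ BF n (pos p) := fun p => BF_cover (W p) (hW p)
  let Λ0 := Fin M × (Fin M → Equiv.Perm (Fin n)) × Pt
  let Dp : Λ0 → Fin M → Set (Fin n × Fin n) := fun l =>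
    Function.update (stt neg l.2.1 l.1) l.1 (pos l.2.2)
  let Dn : Λ0 → Fin M → Set (Fin n × Fin n) := fun l => stt neg l.2.1 (l.1 + 1)
  have hRp : ∀ l, ¬ ∃ x : Fin (M * n ^ 2) → ℝ, inp e (Dp l) ≤ A *ᵥ x := by
    intro l
    rw [hA]
    intro h
    have := h l.1
    simp only [Dp, Function.update_self] at this
    exact hpos _ this
  have hRn : ∀ l, ∃ x : Fin (M * n ^ 2) → ℝ, inp e (Dn l) ≤ A *ᵥ x := by
    intro l
    rw [hA]
    intro j
    by_cases hjl : j.val < l.1 + 1
    · have : stt neg l.2.1 (l.1 + 1) j = neg (l.2.1 j) := by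
        ext v
        simp [stt, hjl]
      simp only [Dn]
      rw [this]
      exact hneg _
    · have : stt neg l.2.1 (l.1 + 1) j = ∅ := by
        ext v
        simp [stt, hjl]
      simp only [Dn]
      rw [this]
      exact hbf0
  have hne : Nonempty (Fin M) := ⟨⟨0, hMpos⟩⟩
  refine ⟨Fintype.card (Rw M n), M * n ^ 2, A, Λ0 ⊕ Λ0, inferInstance, inferInstance,
    fun l => inp e (Sum.elim Dp Dn l), rfl, ?_, fun i j => Mtx_values M n _ _,
    fun l => inp_small e _, ?_, ?_⟩
  · rw [card_Rw]
    have : M * n ≤ M * n ^ 2 := Nat.mul_le_mul_left _ (by nlinarith)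
    have e1 : M * (n * n) = M * n ^ 2 := by ring
    rw [e1]
    omega
  · have h3 : (univ.filter (fun l : Λ0 ⊕ Λ0 =>
        ∃ x : Fin (M * n ^ 2) → ℝ, inp e (Sum.elim Dp Dn l) ≤ A *ᵥ x)).card = Fintype.card Λ0 := by
      rw [← Finset.univ_disjSum_univ, Finset.card_filter, Finset.sum_disjSum]
      have h4 : ∀ l : Λ0, (if ∃ x : Fin (M * n ^ 2) → ℝ, inp e (Sum.elim Dp Dn (Sum.inl l)) ≤
          A *ᵥ x then 1 else 0) = 0 := fun l => if_neg (hRp l)
      have h5 : ∀ l : Λ0, (if ∃ x : Fin (M * n ^ 2) → ℝ, inp e (Sum.elim Dp Dn (Sum.inr l)) ≤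
          A *ᵥ x then 1 else 0) = 1 := fun l => if_pos (hRn l)
      rw [sum_congr rfl fun l _ => h4 l, sum_congr rfl fun l _ => h5 l]
      simp
    rw [h3, Fintype.card_sum]
    ring
  · intro T hT hr hsteps
    obtain ⟨O, hO⟩ : ∃ O : (Fin M → Set (Fin n × Fin n)) → Prop,
      O = fun Y => ¬ ans (inp e Y) T 0 = true := ⟨_, rfl⟩
    have hch := chain_avg (m := M) pos neg c (2 ^ r) O (fun Y => path (inp e Y) T 0)
      (fun Y Y' h => by
        have h3 := ans_eq T h
        rw [hO]
        dsimp only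
        rw [h3])
      (fun y => by
        have h3 := changes T hT r M (fun i => inp e (stt neg y i))
          (fun i _ => inp_mono e (stt_mono neg y i)) (fun i _ => hr _ (inp_small e _))
        convert h3)
      (fun z J hz => by
        have := block d c W H T hT e hsteps z J hz
        convert this)
    -- counting the correct answers
    have hcount : (univ.filter (fun l : Λ0 ⊕ Λ0 =>
        (ans (inp e (Sum.elim Dp Dn l)) T 0 = true ↔
          ∃ x : Fin (M * n ^ 2) → ℝ, inp e (Sum.elim Dp Dn l) ≤ A *ᵥ x))).card =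
        (univ.filter (fun l : Λ0 => O (Dp l))).card +
        (univ.filter (fun l : Λ0 => ¬ O (Dn l))).card := by
      rw [← Finset.univ_disjSum_univ, Finset.card_filter, Finset.sum_disjSum, Finset.card_filter,
        Finset.card_filter]
      congr 1
      · apply Finset.sum_congr rfl
        intro l _
        have h3 : (ans (inp e (Sum.elim Dp Dn (Sum.inl l))) T 0 = true ↔
            ∃ x : Fin (M * n ^ 2) → ℝ, inp e (Sum.elim Dp Dn (Sum.inl l)) ≤ A *ᵥ x) ↔ O (Dp l) := by
          rw [hO]
          have := hRp l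
          simp only [Sum.elim_inl]
          tauto
        simp only [h3]
      · apply Finset.sum_congr rfl
        intro l _
        have h3 : (ans (inp e (Sum.elim Dp Dn (Sum.inr l))) T 0 = true ↔
            ∃ x : Fin (M * n ^ 2) → ℝ, inp e (Sum.elim Dp Dn (Sum.inr l)) ≤ A *ᵥ x) ↔
            ¬ O (Dn l) := by
          rw [hO]
          have := hRn l
          simp only [Sum.elim_inr]
          tauto
        simp only [h3]
    have hpos' : (((univ.filter (fun l : Λ0 => O (Dp l))).card : ℕ) : ℚ)
        = ∑ i : Fin M, ∑ y : Fin M → Equiv.Perm (Fin n), ((univ.filter (fun p : Pt =>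
          O (Function.update (stt neg y i) i (pos p)))).card : ℚ) := by
      rw [Finset.card_filter]
      push_cast
      rw [Fintype.sum_prod_type]
      apply Finset.sum_congr rfl
      intro i _
      rw [Fintype.sum_prod_type]
      apply Finset.sum_congr rfl
      intro y _
      rw [Finset.card_filter]
      push_cast
      rfl
    have hneg' : (((univ.filter (fun l : Λ0 => O (Dn l))).card : ℕ) : ℚ)
        = (∑ i : Fin M, ((univ.filter (fun y : Fin M → Equiv.Perm (Fin n) =>
          O (stt neg y (i + 1)))).card : ℚ)) * Fintype.card Pt := by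
      rw [Finset.card_filter]
      push_cast
      rw [Fintype.sum_prod_type, Finset.sum_mul]
      apply Finset.sum_congr rfl
      intro i _
      rw [Fintype.sum_prod_type, Finset.card_filter]
      push_cast
      rw [Finset.sum_mul]
      apply Finset.sum_congr rfl
      intro y _
      have : ∀ q : Pt, Dn (i, y, q) = stt neg y (i + 1) := fun _ => rfl
      simp only [this]
      rw [Finset.sum_const, Finset.card_univ, nsmul_eq_mul, mul_comm]
    have hsplit := Finset.card_filter_add_card_filter_not (s := (univ : Finset Λ0))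
      (fun l : Λ0 => O (Dn l))
    rw [Finset.card_univ] at hsplit
    have hΛ0 : (Fintype.card Λ0 : ℚ) =
        M * (Fintype.card (Fin M → Equiv.Perm (Fin n)) * Fintype.card Pt) := by
      rw [Fintype.card_prod, Fintype.card_prod, Fintype.card_fin]
      push_cast
      ring
    have hNp : (0 : ℚ) < Fintype.card (Fin M → Equiv.Perm (Fin n)) * Fintype.card Pt := by
      have h1 : 0 < Fintype.card (Fin M → Equiv.Perm (Fin n)) := Fintype.card_pos
      have h2 : 0 < Fintype.card Pt := Fintype.card_pos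
      exact_mod_cast Nat.mul_pos h1 h2
    have hKq : (M : ℚ) = c * (2 : ℚ) ^ r := by rw [hM]; push_cast; ring
    have hmq : (0 : ℚ) < M := by exact_mod_cast hMpos
    have hc0 : (1 : ℚ) ≤ c := by exact_mod_cast hc
    rw [hcount]
    have goal : (2 : ℚ) * c *
        (((univ.filter (fun l : Λ0 => O (Dp l))).card : ℕ) +
        ((univ.filter (fun l : Λ0 => ¬ O (Dn l))).card : ℕ) : ℚ) <
        (c + 2) * (2 * Fintype.card Λ0) := by
      have hs2 : (((univ.filter (fun l : Λ0 => ¬ O (Dn l))).card : ℕ) : ℚ) = Fintype.card Λ0 -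
          (((univ.filter (fun l : Λ0 => O (Dn l))).card : ℕ) : ℚ) := by
        have : (((univ.filter (fun l : Λ0 => O (Dn l))).card +
          (univ.filter (fun l : Λ0 => ¬ O (Dn l))).card : ℕ) : ℚ) =
          Fintype.card Λ0 := by exact_mod_cast hsplit
        push_cast at this
        linarith
      rw [hs2, hpos', hneg', hΛ0]
      push_cast at hch
      rw [hKq] at hch ⊢
      have h3 : 2 * (c : ℚ) * ((2 : ℚ) ^ r - 1) + c * 2 ^ r < 4 * (c * 2 ^ r) := by
        have : (0 : ℚ) < (2 : ℚ) ^ r := by positivity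
        nlinarith
      have h4 := mul_lt_mul_of_pos_left h3 hNp
      nlinarith
    have goal2 : (2 : ℚ) * c *
        (((univ.filter (fun l : Λ0 => O (Dp l))).card : ℕ) +
        ((univ.filter (fun l : Λ0 => ¬ O (Dn l))).card : ℕ) : ℚ) <
        (c + 2) * Fintype.card (Λ0 ⊕ Λ0) := by
      rw [Fintype.card_sum]
      push_cast
      linarith
    exact_mod_cast goal2

end Pool.Agent.X246.LPA
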